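import Pool.Agent.V1153.UR.Rec

/-!
# Projective varieties with dense entire curves or recurrent families of points are uniruled

Let `X` be an irreducible projective variety over the complex numbers. The following are equivalent.

(1) `X` is uniruled.

(2) For some `(s, r, e, d)` the nonconstant entire curves in `X` of complexity at most `(s, r, e, d)`
are not contained in a proper closed subset: these are the curves whose homogeneous coordinates, in
some open set and up to a common factor, are polynomials of degree at most `e` in each of `z`,
`1 / q(z)`, where `q` has degree at most `d`, and the entries of the solutions `y_1, ..., y_s` of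
iterated systems of `r` linear differential equations, the coefficients of the system for `y_l` being
such polynomials in `z`, `1 / q(z)` and the entries of `y_1, ..., y_{l-1}`.

(3) For some `r` and `d` the nonconstant entire curves in `X` whose homogeneous coordinates satisfy
linear differential equations of order at most `r` with polynomial coefficients of degree at most `d`
are not contained in a proper closed subset.

(4) For some `r` and `e` the nonconstant meromorphic maps from the spaces `ℂ^k`, `k` arbitrary, to `X`
whose homogeneous coordinates are sums of `r` products of a polynomial of degree at most `e` and the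
exponential of an arbitrary entire function are not contained in a proper closed subset.

(5) For some `(s, r, e)`, all proper closed subsets `Z` and all `B` there is a family of points of `X`,
indexed by a group and given by iterated recurrences of type `(s, r, e)`, with more than `B` different
points outside of `Z`.

(6) For some `e` and all proper closed subsets `Z` there is a sequence of points of `X` over a finitely
generated field, with homogeneous coordinates which are polynomials of degree at most `e` in `u ^ h`
and `u ^ (-h)`, `h ∈ ℤ`, with infinitely many different points outside of `Z`.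

If these hold then `κ(X) = -∞`: all pluricanonical forms on `X` are zero. So for varieties with
`κ(X) = -∞` the conclusion of the conjecture, that they are uniruled, can be proved by means of
transcendental curves or of sequences of points.
-/

set_option autoImplicit false

namespace Pool.Agent.Results.MP_e06174_ag.DenseCurvesUniruled

open MvPolynomial Pool.Agent.V1153.UG Pool.Agent.V1153.XS Pool.Agent.V1153.UR Pool.Agent.V1153.IT
open Pool.Agent.Y377.ST (IterVec ptsOff)
open Pool.Agent.TH143.GT (FunField Pluricanonical)

/-- Let `X` be the projective variety with the ideal `I`. Then `X` is uniruled if and only if one of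
the following sets is not contained in a proper closed subset of `X`, for some bounds: the entire
curves of complexity at most `(s, r, e, d)`; the entire curves with coordinates satisfying linear
differential equations of order at most `r` and degree at most `d`; the meromorphic maps from the
spaces `ℂ^k` given by sums of `r` products of a polynomial of degree at most `e` and the exponential
of an entire function; or, for some type of iterated recurrences, the families of points of this type
have arbitrarily many points outside of each proper closed subset; or, for some `e`, sequences of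
points over finitely generated fields with coordinates given by polynomials of degree at most `e` in
`u ^ h` and `u ^ (-h)` have infinitely many points outside of each proper closed subset. In this case
all pluricanonical forms of `X` are zero. -/
theorem result {n : ℕ} (I : Ideal (MvPolynomial (Fin (n + 1)) ℂ)) (hI : I.IsPrime) :
    List.TFAE [Uniruled I,
      ∃ s r e d : ℕ, ∀ G : MvPolynomial (Fin (n + 1)) ℂ, (∃ m, G.IsHomogeneous m) → G ∉ I →
        ∃ f, Curve I 1 f ∧ Bdd Set.univ 1 s r e d f ∧ ∃ z, eval (f z) G ≠ 0,
      ∃ r d : ℕ, ∀ G : MvPolynomial (Fin (n + 1)) ℂ, (∃ m, G.IsHomogeneous m) → G ∉ I →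
        ∃ f, Curve I 1 f ∧ (∀ j, DFin r d fun z => f z j) ∧ ∃ z, eval (f z) G ≠ 0,
      ∃ r e : ℕ, ∀ G : MvPolynomial (Fin (n + 1)) ℂ, (∃ m, G.IsHomogeneous m) → G ∉ I →
        ∃ k f, ExpMap k r e I 1 f ∧ ∃ z, eval (f z) G ≠ 0,
      ∃ s r e : ℕ, ∀ (G : MvPolynomial (Fin (n + 1)) ℂ) (B : ℕ), (∃ m, G.IsHomogeneous m) → G ∉ I →
        ∃ (H : Type) (_ : Group H) (x : H → Fin (n + 1) → ℂ),
          (∀ h, ∀ F ∈ I, (∃ m, F.IsHomogeneous m) → eval (x h) F = 0) ∧ IterVec s r e x ∧
            (B : ℕ∞) < (ptsOff G x).encard,
      ∃ e : ℕ, ∀ G : MvPolynomial (Fin (n + 1)) ℂ, (∃ m, G.IsHomogeneous m) → G ∉ I →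
        ∃ (T : Finset ℂ) (x : Multiplicative ℤ → Fin (n + 1) → ℂ),
          (∀ h j, x h j ∈ IntermediateField.adjoin ℚ (T : Set ℂ)) ∧
          (∀ h, ∀ F ∈ I, (∃ m, F.IsHomogeneous m) → eval (x h) F = 0) ∧ IterVec 1 1 e x ∧
            (ptsOff G x).Infinite] ∧
    (Uniruled I → ∀ (K : Type) [Field K] [Algebra ℂ K] (w : ℕ) (y : Fin (n + 1) → K),
      FunField I 1 K w y → ∀ N, 0 < N → ∀ ω : (Fin w → Derivation ℂ K K) → K,
        Pluricanonical w N ω → ω = 0) := by
  have h1h : (1 : MvPolynomial (Fin (n + 1)) ℂ).IsHomogeneous 0 := isHomogeneous_one _ _
  have h6 := six hI h1h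
  have hx := exp_tfae hI h1h
  have hgu : GmRuled I 1 ↔ Uniruled I := uniruled_iff
  refine ⟨?_, fun hu K _ _ w y hy N hN ω hω => ?_⟩
  · tfae_have 1 ↔ 2 := by
      have h2 : ¬ GmRuled I 1 ↔ EntireThin I 1 := h6.out 0 3
      rw [← hgu, ← not_iff_not, h2]
      unfold EntireThin
      push Not
      exact Iff.rfl
    tfae_have 1 ↔ 3 := by
      have h2 : ¬ GmRuled I 1 ↔ DFinThin I 1 := h6.out 0 2
      rw [← hgu, ← not_iff_not, h2]
      unfold DFinThin
      push Not
      exact Iff.rfl
    tfae_have 1 ↔ 4 := by
      have h2 : ¬ GmRuled I 1 ↔ ExpThin I 1 := hx.out 0 2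
      rw [← hgu, ← not_iff_not, h2]
      unfold ExpThin
      push Not
      exact Iff.rfl
    tfae_have 5 → 1 := by
      rintro ⟨s, r, e, h⟩
      by_contra hu
      obtain ⟨G, B, hG, hGI, hall⟩ := arith_thin hI h1h
        (thin_of_not_ruled hI h1h fun h1 => hu (hgu.1 h1)) s r e
      obtain ⟨H, iH, x, hx1, hx2, hx3⟩ := h G B hG hGI
      refine not_le.2 hx3 (hall H x hx1 ⟨fun h => by rw [map_one]; exact one_ne_zero, ?_⟩)
      obtain ⟨X, Y, hX, hc⟩ := hx2
      refine ⟨X, Y, hX, fun j => Fin.cases ?_ (fun j => ?_) j⟩
      · obtain ⟨d, hd⟩ := PevFn.const (ι := Pool.Agent.Y377.ST.Ix s r) e (1 : ℂ)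
        refine ⟨d, fun h => ?_⟩
        change (eval (x h) (1 : MvPolynomial (Fin (n + 1)) ℂ))⁻¹ = _
        rw [map_one, inv_one]
        exact hd _
      · obtain ⟨d, hd⟩ := hc j
        exact ⟨d, fun h => hd h⟩
    tfae_have 6 → 5 := by
      rintro ⟨e, h⟩
      refine ⟨1, 1, e, fun G B hG hGI => ?_⟩
      obtain ⟨T, x, -, h2, h3, h4⟩ := h G hG hGI
      refine ⟨Multiplicative ℤ, inferInstance, x, h2, h3, ?_⟩
      rw [h4.encard_eq]
      exact WithTop.coe_lt_top B
    tfae_have 1 → 6 := by
      intro hu
      by_contra hcon
      push Not at hcon
      have h2 : PowersFinite I := by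
        intro e
        obtain ⟨G, hG, hGI, hall⟩ := hcon e
        exact ⟨G, hG, hGI, fun T x h1 h2 h3 => hall T x h1 h2 h3⟩
      exact not_ruled_of_thin h2.gmThin (hgu.2 hu)
    tfae_finish
  · by_contra hne
    exact not_ruled_of_form hy ⟨N, hN, ω, hω, hne⟩ (hgu.2 hu)

end Pool.Agent.Results.MP_e06174_ag.DenseCurvesUniruled
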