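import Pool.Agent.V11168.MV.Main
import Pool.Agent.V11168.Pair.Point

/-!
# Negative Kodaira dimension and multivalued holomorphic 1-forms along the fibres of a map

Let `X` be a projective manifold (or a Moishezon manifold; only the field of meromorphic functions matters)
of dimension `d + r` with function field `K`, and `f : X → B` a dominant rational map, `dim B = d`, with
`M ⊂ K` the function field of `B` (`B` may be a point: `d = 0`). A multivalued 1-form on `X` is a `K`-linear
map `ω` from the rational vector fields to the algebraic closure of `K`. It is holomorphic (`MultiReg`) if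
along each prime divisor `v` over `X` its values on the vector fields which are regular along `v` are
integral over the local ring of `v`. It is assumed that no rational vector field on `X` which is tangent to
the fibres of `f` is killed by all the multivalued holomorphic 1-forms `ω i`. (In the algebraic closure of
`K` there can be such vector fields: a single `ω`, with `r` conjugates which are linearly independent along
the fibres, is enough.) So `X` is not covered by rational curves which are contracted by `f`.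

The conjecture predicts that either `X` is uniruled or `κ (X) ≥ 0`. We prove: if `κ (X) = -∞`, then
`κ (B) = -∞`, and more precisely `κ (K_B + Δ_B) = -∞` for all divisors `Δ_B` on `B` whose multiplicities
`δB u ≤ 1` along the prime divisors `u` over `B` satisfy `δB u ≤ 1 - 1 / c` if a prime divisor `v` over `X`
lies over `u` with multiplicity `c` (on suitable models: for the orbifold base of Campana).
-/

set_option autoImplicit false

open FF IntermediateField Pool.Agent.W619.PQ Pool.Agent.W619.TW Pool.Agent.W619.Y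
  Pool.Agent.Y173.QA Pool.Agent.Y174 Pool.Agent.V11168.Rel

namespace Pool.Agent.Results.MP_e06174_ag.MultivaluedFormsOverBase

/-- `κ (X) ≥ h` for the projective manifolds of dimension `n` over `k` with the function field `K`: for
some `m ≥ 1` there are `h + 1` regular `m`-fold pluricanonical forms whose `h` ratios are algebraically
independent. So `κ (X) = -∞` if this fails for `h = 0`. -/
def KodairaGe (k K : Type) [Field k] [Field K] [Algebra k K] (n h : ℕ) : Prop := KodTr k K n h

/-- The multiplicities `δB u ≤ 1` of `Δ_B` are compatible with the multiplicities of `f : X → B`. -/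
def IsCompatible {K : Type} [Field K] [Algebra ℂ K] (M : IntermediateField ℂ K) (n : ℕ)
    (δB : Place ℂ M → ℝ) : Prop :=
  (∀ u, δB u ≤ 1) ∧ ∀ v : Place ℂ K, IsDivisorial v n → ∀ (u : Place ℂ M) (c : ℕ), LiesOn v u c →
    δB u ≤ 1 - 1 / c

/-- **Theorem.** Let `f : X → B`, `M ⊂ K` and the multivalued holomorphic 1-forms `ω i` be as above.
(1) For all divisors `Δ_B` as above with `κ (K_B + Δ_B) ≥ 0`: `κ (X) ≥ κ (K_B + Δ_B)`. (`PairKod ℂ M d δB h`
means `κ (K_B + Δ_B) ≥ h`.) (2) If `κ (X) = -∞`, then `κ (K_B + Δ_B) = -∞` for all these `Δ_B`,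
`κ (B) = -∞`, and `B` is not a point. (3) If `κ (X) ≥ 0` because of (1), then `X` has a finite Galois cover
`Z`, with function field `L`, and `r` holomorphic 1-forms `θ i` which are linearly independent on the general
fibre of `Z → B`, such that `κ (X) = κ (Z)`. -/
theorem result {K : Type} [Field K] [Algebra ℂ K] [Algebra.EssFiniteType ℂ K]
    (M : IntermediateField ℂ K) [Algebra.EssFiniteType ℂ M] {d r s : ℕ}
    (hM : Algebra.trdeg ℂ M = d) (hn : Algebra.trdeg ℂ K = (d + r : ℕ))
    (ω : Fin s → Derivation ℂ K K →ₗ[K] AlgebraicClosure K)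
    (hreg : ∀ i, MultiReg (d + r) (ω i))
    (hker : ∀ D : Derivation ℂ K K, (∀ x ∈ M, D x = 0) → (∀ i, ω i D = 0) → D = 0) :
    (∀ δB : Place ℂ M → ℝ, IsCompatible M (d + r) δB → PairKod ℂ M d δB 0 →
      (∀ h, PairKod ℂ M d δB h → KodairaGe ℂ K (d + r) h) ∧
      ∃ L : IntermediateField K (AlgebraicClosure K), FiniteDimensional K L ∧ IsGalois K L ∧
        (∃ θ : Fin r → (Derivation ℂ L L →ₗ[L] L),
          (∀ i, IsRegForm (d + r) (θ i)) ∧
          ∀ c : Fin r → L, (∀ D : Derivation ℂ L L, (∀ x ∈ M, D (algebraMap K L x) = 0) →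
            ∑ i, c i * θ i D = 0) → c = 0) ∧
        ∀ h, KodairaGe ℂ K (d + r) h ↔ KodairaGe ℂ L (d + r) h) ∧
    (¬ KodairaGe ℂ K (d + r) 0 →
      (∀ δB : Place ℂ M → ℝ, IsCompatible M (d + r) δB → ¬ PairKod ℂ M d δB 0) ∧
      ¬ KodairaGe ℂ M d 0 ∧ d ≠ 0) := by
  have key : ∀ δB : Place ℂ M → ℝ, IsCompatible M (d + r) δB → PairKod ℂ M d δB 0 →
      (∀ h, PairKod ℂ M d δB h → KodairaGe ℂ K (d + r) h) ∧
      ∃ L : IntermediateField K (AlgebraicClosure K), FiniteDimensional K L ∧ IsGalois K L ∧
        (∃ θ : Fin r → (Derivation ℂ L L →ₗ[L] L),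
          (∀ i, IsRegForm (d + r) (θ i)) ∧
          ∀ c : Fin r → L, (∀ D : Derivation ℂ L L, (∀ x ∈ M, D (algebraMap K L x) = 0) →
            ∑ i, c i * θ i D = 0) → c = 0) ∧
        ∀ h, KodairaGe ℂ K (d + r) h ↔ KodairaGe ℂ L (d + r) h := by
    rintro δB ⟨hB, hX⟩ hκ
    obtain ⟨L, h1, h2, ⟨θ, h3, h4⟩, h5, h6⟩ := Pool.Agent.V11168.MV.mv_main
      (Ω := AlgebraicClosure K) ‹Algebra.EssFiniteType ℂ K› M ‹Algebra.EssFiniteType ℂ M› hM hn
      (fun _ => False) (fun _ => 0) (fun _ => le_rfl) (fun _ h => h.elim) hB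
      (fun v hv u c hc => by
        have h1 := hX v hv u c hc
        have h2 : (0 : ℝ) < c := by exact_mod_cast hc.1
        have h3 : (c : ℝ) * (1 / c) = 1 := by field_simp
        have h4 := mul_le_mul_of_nonneg_left (show 1 / (c : ℝ) ≤ 1 - δB u by linarith) h2.le
        linarith)
      hκ ω (fun i v hv D hD => hreg i v hv D (hD.1 fun h => h)) hker
    have hpull : IsPull (fun _ : Place ℂ K => (0 : ℝ)) (fun _ : Place ℂ L => (0 : ℝ)) := by
      intro v w e he
      have h7 : (1 : ℝ) ≤ e := by exact_mod_cast he.1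
      rw [max_eq_left (by linarith)]
    obtain ⟨h8, -⟩ := h6 _ hpull
    unfold KodairaGe
    refine ⟨fun h hh => pairKod_zero.1 (h5 h hh), L, h1, h2,
      ⟨θ, fun i w hw D hD => h4 i w hw D ⟨fun _ => hD, fun ⟨_, _, _, h⟩ => h.elim⟩, h3⟩,
      fun h => ?_⟩
    rw [← pairKod_zero, ← pairKod_zero]
    exact h8 h
  have hzero : IsCompatible M (d + r) (fun _ => 0) := by
    refine ⟨fun _ => zero_le_one, fun v hv u c hc => ?_⟩
    have h2 : (1 : ℝ) ≤ c := by exact_mod_cast hc.1
    have h3 : 1 / (c : ℝ) ≤ 1 := by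
      rw [div_le_one (by linarith)]
      exact h2
    linarith
  refine ⟨key, fun hneg => ⟨fun δB hδ hκ => hneg ((key δB hδ hκ).1 0 hκ), fun hκ => ?_, fun hd => ?_⟩⟩
  · have h1 : PairKod ℂ M d (fun _ => 0) 0 := pairKod_zero.2 hκ
    exact hneg ((key _ hzero h1).1 0 h1)
  · subst hd
    have h1 : PairKod ℂ M 0 (fun _ => 0) 0 := Pool.Agent.V11168.Pair.pairKod_point hM _
    exact hneg ((key _ hzero h1).1 0 h1)

end Pool.Agent.Results.MP_e06174_ag.MultivaluedFormsOverBase
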