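import Pool.Agent.V5SU.Main

/-!
# Negative Kodaira dimension and uniruledness for fibre products of families of superelliptic curves
over a variety of log general type

Let `V` be any variety of dimension `p` with the function field `K0`, `y 0, …, y n` nonzero rational
functions on `V` whose ratios define a generically finite map of `V` to projective space, and `B` any
set of prime divisors over `V`, such that the complement of `B` and of the zeros and poles of the
ratios `y i / y j` is of log general type; there is no condition on the singularities of these
divisors, and the Kodaira dimension of `V` itself is arbitrary, it is `-∞` for instance if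
`V = ℙ^p`. There is a number `μ` which depends only on these data, such that the following holds for
all projective varieties `X` with canonical singularities (for instance projective manifolds) of any
dimension `p + e`, with a dominant rational map `X ⇢ V`, such that:

* (the base) for every prime divisor `P` of `X` which does not dominate `V`: either the orders of two
  of the functions `y i` along `P` differ by at least `μ`, or all `y i` have the same order along `P`,
  and the ramification index of `P` over `V` is at least `2` if `P` lies over a prime divisor in `B`;
* (the fibres) `X` is birational to the fibre product over `V'` of `e` arbitrary cyclic covers of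
  `V' × P^1`, where the function field `F` of `V'` is the algebraic closure of `ℂ(V)` in `ℂ(X)`; that
  is, `ℂ(X)` is generated over `F` by `x j`, `z j`, `j < e`, the `x j` are algebraically independent
  over `F`, and

  `z j ^ m j = c j * ∏ k, g j k (x j) ^ a j k`, `m j ≥ 1`, `a j k ≥ 0`, `c j ≠ 0` in `F`,

  where the `g j k` are polynomials over `F`, `g j k` of degree `d j k`, square free and pairwise
  without common roots (for given `j`).

Then, if `κ(X) = -∞`, `X` is uniruled. More precisely, let
`W j = ∑ k, d j k * (1 - gcd (m j, a j k) / m j) + 1 - gcd (m j, ∑ k, a j k * d j k) / m j`; if `C j`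
is the curve over `F` given by the `j`-th equation, of genus `g j`, and of degree `n j` over the line,
then `2 g j - 2 = n j * (W j - 2)`. The following are equivalent: `κ(X) = -∞`; the numerical dimension
of `K_X` is `-∞` (with respect to any effective divisor `A`: `K_X` is not pseudo-effective);
`W j < 2` for some `j`. In this case `X` is uniruled (as is well known, uniruled varieties have
`κ(X) = -∞`; this converse is not part of the theorem below); and otherwise `κ(X)` is `p` plus the
number of the `j` with `W j > 2`. The moduli of the curves may vary.

The language and the definitions of `Pool.Agent.Y172` are used: `X` is given by the homogeneous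
coordinates `v` of its generic point, with values in the function field `K` of `X`; the prime divisors
of `X` are places `P` of `K`, `P.ord` is the order along `P`.

Proof: by the theorem on the Kodaira dimension of these varieties (`Pool.Agent.V1157.KL.cyc_lgt`; see
`MP_5ff3c6_ag.SuperellipticFibres`), `κ(X) = -∞` gives some `W j < 2`. The local monodromies of a
cyclic cover of the line with `W < 2` are trivial except at two points at most
(`Pool.Agent.V5SU.branch`), and the cover of these curves over the algebraic closure of the function
field of the product of the other factors is parametrised by the line (`exists_par`, `unir_cyc`).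
-/

set_option autoImplicit false

open FF Pool.Agent.W602.GT Pool.Agent.Y172 Pool.Agent.Y191 Pool.Agent.V1157.KL

namespace Pool.Agent.Results.MP_e06174_ag.SuperellipticUniruled

section

variable {K : Type} [Field K] [Algebra ℂ K] {N : ℕ}

/-- `X` is a projective variety of dimension `n` with canonical singularities, `v` is its generic
point. -/
def IsCanonicalVariety (v : Fin (N + 1) → K) (n : ℕ) : Prop :=
  NormalModel v ∧ Algebra.trdeg ℂ K = n ∧ Canonical v n

/-- The prime divisors of `X` dominate the variety `V` with the function field `K0`, or satisfy the
condition on the multiplicities. -/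
def HighOver (K0 : Type) [Field K0] [Algebra ℂ K0] [Algebra K0 K] {n : ℕ} (y : Fin (n + 1) → K0)
    (B : Place ℂ K0 → Prop) (μ : ℕ) (v : Fin (N + 1) → K) : Prop :=
  ∀ P, IsPrimeDivisor v P → (∀ g : K0, P.ord (algebraMap K0 K g) = 0) ∨ Mult y B μ P 0

/-- Let `F` be the algebraic closure of `L` in `K`. The field `K` is generated over `F` by elements
`x j`, `z j` with `z j ^ m j = c j * ∏ k, g j k (x j) ^ a j k`, where the `x j` are algebraically
independent over `F`, `m j ≥ 1`, `c j` is a nonzero element of `F`, and the `g j k` are polynomials
over `F` of degree `d j k`, square free and pairwise without common roots for given `j`. -/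
def CyclicFibres (L : IntermediateField ℂ K) {e : ℕ} (m s : Fin e → ℕ)
    (d a : ∀ j, Fin (s j) → ℕ) : Prop :=
  ∃ (x z c : Fin e → K) (g : ∀ j, Fin (s j) → Polynomial (acl ℂ (L : Set K))),
    CycData (acl ℂ (L : Set K)) x z m s g a c ∧ ∀ j k, (g j k).natDegree = d j k

end

/-- `W = ∑ k, d k * (1 - gcd (m, a k) / m) + 1 - gcd (m, ∑ k, a k * d k) / m` -/
def weight (m : ℕ) {s : ℕ} (d a : Fin s → ℕ) : ℚ :=
  ∑ k, d k * (1 - (m.gcd (a k) : ℚ) / m) + (1 - (m.gcd (∑ k, a k * d k) : ℚ) / m)

/-- The varieties with the function field `K`, of dimension `n`, are uniruled: there are a variety of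
dimension `n - 1`, with the function field `M`, and a dominant rational map from its product with the
projective line to the varieties with the function field `K`. -/
def IsUniruled (K : Type) [Field K] [Algebra ℂ K] (n : ℕ) : Prop :=
  ∃ (M : Type) (_ : Field M) (_ : Algebra ℂ M), Algebra.EssFiniteType ℂ M ∧
    Algebra.trdeg ℂ M + 1 = n ∧ Nonempty (K →ₐ[ℂ] RatFunc M)

theorem wsum_eq {K : Type} [Field K] [Algebra ℂ K] {F : IntermediateField ℂ K} {e : ℕ}
    {m s : Fin e → ℕ} {g : ∀ j, Fin (s j) → Polynomial F} {a d : ∀ j, Fin (s j) → ℕ}
    (hd : ∀ j k, (g j k).natDegree = d j k) (j : Fin e) :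
    wsum m s g a j = weight (m j) (d j) (a j) := by
  unfold wsum weight wtc
  simp only [hd]

/-- Let `K0` be the function field of a variety `V` of dimension `p`, let `y i` be nonzero elements of
`K0` such that `K0` is algebraic over the field generated by their ratios, and let `B` be a set of
places, such that the complement in `V` of the prime divisors in `B` and of the zeros and poles of the
ratios is of log general type. Then there is a number `μ` such that for all projective varieties `X`
of dimension `p + e` with canonical singularities, with a dominant rational map `X ⇢ V`, such that the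
prime divisors of `X` dominate `V` or satisfy the condition on the multiplicities (`HighOver`), and
fibres as in `CyclicFibres`:
(a) the Kodaira dimension of `X` is `-∞` if and only if the numerical dimension of `K_X` is `-∞`, if
and only if `W j < 2` for some `j`;
(b) if the Kodaira dimension of `X` is `-∞` then `X` is uniruled;
(c) otherwise it is `p` plus the number of the `j` with `W j > 2`. -/
theorem result (K0 : Type) [Field K0] [Algebra ℂ K0] [Algebra.EssFiniteType ℂ K0] (n p : ℕ)
    (y : Fin (n + 1) → K0) (B : Place ℂ K0 → Prop) (hy : ∀ i, y i ≠ 0)
    (halg : ∀ z : K0, IsAlgebraic (IntermediateField.adjoin ℂ (Set.range fun i => y i / y 0)) z)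
    (hgt : LogGeneralType ℂ K0 p (fun P => (∃ i, P.ord (y i) ≠ P.ord (y 0)) ∨ B P)) :
    ∃ μ : ℕ, ∀ (K : Type) [Field K] [Algebra ℂ K] [Algebra K0 K] [IsScalarTower ℂ K0 K]
      (N e : ℕ) (m s : Fin e → ℕ) (d a : ∀ j, Fin (s j) → ℕ) (v : Fin (N + 1) → K),
      IsCanonicalVariety v (p + e) → HighOver K0 y B μ v → CyclicFibres (img K0 K) m s d a →
      [kodairaDim v (p + e) 0 = ⊥, ∀ A, Effective v A → numericalDim v (p + e) 0 A = ⊥,
        ∃ j, weight (m j) (d j) (a j) < 2].TFAE ∧
      (kodairaDim v (p + e) 0 = ⊥ → IsUniruled K (p + e)) ∧
      (kodairaDim v (p + e) 0 ≠ ⊥ → kodairaDim v (p + e) 0 =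
        ((p + (Finset.univ.filter fun j => 2 < weight (m j) (d j) (a j)).card : ℕ) :
          WithBot ℕ)) := by
  obtain ⟨μ, hμ⟩ := Pool.Agent.V5SU.main K0 n p y B hy halg hgt
  refine ⟨μ, ?_⟩
  rintro K _ _ _ _ N e m s d a v ⟨hv, hn, hcan⟩ hH ⟨x, z, c, g, hc, hd⟩
  obtain ⟨h1, h2, h3⟩ := hμ K N e v hv hn hcan hH m s x z c a g hc
  simp only [wsum_eq hd] at h1 h3
  exact ⟨h1, h2, fun h => (h3 h).1⟩

end Pool.Agent.Results.MP_e06174_ag.SuperellipticUniruled
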